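import Pool.Agent.Helper34.Wqo.Q1e

/-!
The class of (diamond, `P₁ + 2P₂`)-free graphs is well-quasi-ordered by the induced subgraph
relation, and even by the labelled induced subgraph relation.
-/

set_option autoImplicit false

open SimpleGraph Pool.Agent.Helper34.Wqo

namespace Pool.Agent.Results.MP_d1cbdd_co.DiamondP1P2P2

/-- The diamond, that is `K₄` minus the edge `01`, on the vertex set `{0,1,2,3}`. -/
def diamond : SimpleGraph (Fin 4) := SimpleGraph.fromRel (fun a b => 2 ≤ b.val ∧ a.val < b.val)

/-- `P₁ + 2P₂` on `{0,…,4}`: the isolated vertex `0` and the edges `12` and `34`. -/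
def P1P2P2 : SimpleGraph (Fin 5) := SimpleGraph.fromRel (fun a b =>
  (a.val = 1 ∧ b.val = 2) ∨ (a.val = 3 ∧ b.val = 4))

/-- The class of (diamond, `P₁ + 2P₂`)-free graphs (on the vertex sets `{0,…,n-1}`). -/
def C (n : ℕ) (G : SimpleGraph (Fin n)) : Prop :=
  ¬ diamond.IsIndContained G ∧ ¬ P1P2P2.IsIndContained G

/-- A class of finite graphs is well-quasi-ordered by the induced subgraph relation: it has no
infinite antichain. -/
def InducedWqo (C : (n : ℕ) → SimpleGraph (Fin n) → Prop) : Prop :=
  ¬ ∃ (n : ℕ → ℕ) (G : (i : ℕ) → SimpleGraph (Fin (n i))), (∀ i, C (n i) (G i)) ∧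
    ∀ i j, i ≠ j → ¬ (G i).IsIndContained (G j)

/-- A class of finite graphs is well-quasi-ordered by the labelled induced subgraph relation: for
every well-quasi-ordered set `W` of labels and every sequence of graphs of the class with vertices
labelled by `W`, some graph of the sequence embeds, as an induced subgraph, in a later one so that
no label decreases. -/
def LabelledWqo (C : (n : ℕ) → SimpleGraph (Fin n) → Prop) : Prop :=
  ∀ (W : Type) [Preorder W] [WellQuasiOrderedLE W] (n : ℕ → ℕ)
    (G : (i : ℕ) → SimpleGraph (Fin (n i))) (l : (i : ℕ) → Fin (n i) → W),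
    (∀ i, C (n i) (G i)) → ∃ i j, i < j ∧ ∃ f : G i ↪g G j, ∀ v, l i v ≤ l j (f v)

lemma diamondFree_of {V : Type} {G : SimpleGraph V} (h : ¬ diamond.IsIndContained G) :
    DiamondFree V G := by
  intro a b x y h1 h2 h3 h4 h5 hxy
  by_contra hn
  apply h
  have hirr : ∀ v, ¬ G.Adj v v := fun v => G.loopless.irrefl v
  have hn' : ¬ G.Adj y x := fun h => hn h.symm
  have s1 := h1.symm
  have s2 := h2.symm
  have s3 := h3.symm
  have s4 := h4.symm
  have s5 := h5.symm
  have d1 := h1.ne
  have d2 := h2.ne
  have d3 := h3.ne
  have d4 := h4.ne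
  have d5 := h5.ne
  refine ⟨⟨⟨![x, y, a, b], ?_⟩, ?_⟩⟩
  · intro i j hij
    fin_cases i <;> fin_cases j <;> first
      | rfl
      | exact absurd hij hxy
      | exact absurd hij.symm hxy
      | exact absurd hij d1
      | exact absurd hij.symm d1
      | exact absurd hij d2
      | exact absurd hij.symm d2
      | exact absurd hij d3
      | exact absurd hij.symm d3
      | exact absurd hij d4
      | exact absurd hij.symm d4
      | exact absurd hij d5
      | exact absurd hij.symm d5
  · intro i j
    fin_cases i <;> fin_cases j <;> first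
      | exact iff_of_true (by assumption) (by simp [diamond])
      | exact iff_of_false (by assumption) (by simp [diamond])
      | exact iff_of_false (hirr _) (by simp [diamond])

lemma noP122_of {V : Type} {G : SimpleGraph V} (h : ¬ P1P2P2.IsIndContained G) :
    NoP122 V G := by
  intro a b c d e h1 h2 h3 h4 h5 h6 h7 h8 h9 h10
  apply h
  have hirr : ∀ v, ¬ G.Adj v v := fun v => G.loopless.irrefl v
  have s1 := h1.symm
  have s2 := h2.symm
  have s3 : ¬ G.Adj c a := fun h => h3 h.symm
  have s4 : ¬ G.Adj d a := fun h => h4 h.symm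
  have s5 : ¬ G.Adj c b := fun h => h5 h.symm
  have s6 : ¬ G.Adj d b := fun h => h6 h.symm
  have s7 : ¬ G.Adj a e := fun h => h7 h.symm
  have s8 : ¬ G.Adj b e := fun h => h8 h.symm
  have s9 : ¬ G.Adj c e := fun h => h9 h.symm
  have s10 : ¬ G.Adj d e := fun h => h10 h.symm
  have d1 := h1.ne
  have d2 := h2.ne
  have d3 : a ≠ c := by rintro rfl; exact h4 h2
  have d4 : a ≠ d := by rintro rfl; exact h3 s2
  have d5 : b ≠ c := by rintro rfl; exact h6 h2
  have d6 : b ≠ d := by rintro rfl; exact h5 s2
  have d7 : e ≠ a := by rintro rfl; exact h8 h1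
  have d8 : e ≠ b := by rintro rfl; exact h7 s1
  have d9 : e ≠ c := by rintro rfl; exact h10 h2
  have d10 : e ≠ d := by rintro rfl; exact h9 s2
  refine ⟨⟨⟨![e, a, b, c, d], ?_⟩, ?_⟩⟩
  · intro i j hij
    fin_cases i <;> fin_cases j <;> first
      | rfl
      | exact absurd hij d1
      | exact absurd hij.symm d1
      | exact absurd hij d2
      | exact absurd hij.symm d2
      | exact absurd hij d3
      | exact absurd hij.symm d3
      | exact absurd hij d4
      | exact absurd hij.symm d4
      | exact absurd hij d5
      | exact absurd hij.symm d5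
      | exact absurd hij d6
      | exact absurd hij.symm d6
      | exact absurd hij d7
      | exact absurd hij.symm d7
      | exact absurd hij d8
      | exact absurd hij.symm d8
      | exact absurd hij d9
      | exact absurd hij.symm d9
      | exact absurd hij d10
      | exact absurd hij.symm d10
  · intro i j
    fin_cases i <;> fin_cases j <;> first
      | exact iff_of_true (by assumption) (by simp [P1P2P2])
      | exact iff_of_false (by assumption) (by simp [P1P2P2])
      | exact iff_of_false (hirr _) (by simp [P1P2P2])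

/-- The class of (diamond, `P₁ + 2P₂`)-free graphs is well-quasi-ordered by the induced subgraph
relation, and even by the labelled induced subgraph relation. -/
theorem result : InducedWqo C ∧ LabelledWqo C := by
  have main : LabelledWqo C := by
    intro W _ hW n G l hG
    have h1 := lwqo_classA W (· ≤ ·) inferInstance hW.wqo
    rw [Set.partiallyWellOrderedOn_iff_exists_lt] at h1
    obtain ⟨i, j, hij, f, hf1, hf2, hf3⟩ := h1
      (fun i => ⟨Fin (n i), inferInstance, G i, l i⟩)
      (fun i => ⟨diamondFree_of (hG i).1, noP122_of (hG i).2⟩)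
    exact ⟨i, j, hij, ⟨⟨f, hf1⟩, fun {u v} => hf2 u v⟩, hf3⟩
  refine ⟨?_, main⟩
  rintro ⟨n, G, hG, hanti⟩
  obtain ⟨i, j, hij, f, -⟩ := main Unit n G (fun _ _ => ()) hG
  exact hanti i j hij.ne ⟨f⟩

end Pool.Agent.Results.MP_d1cbdd_co.DiamondP1P2P2
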